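import Pool.Agent.Work.MP_bf99ce_cxs.Stat
import Pool.Agent.Work.MP_bf99ce_cx.Stat

/-! # THEOREM CX: the two forms of the final statement agree -/

set_option autoImplicit false

namespace Pool.CXS

theorem mono_eq (K W : Type) [Field K] [AddCommGroup W] [Module K W] {q m : ℕ} (w : Fin m → Fin q → W) :
    (mono K w : Sym K W) = CX.mono K w := rfl

theorem reg_iff {K : Type} [Field K] [Algebra ℂ K] (A : Subalgebra ℂ K) (q m : ℕ) (τ : Sym K (Om K)) :
    Reg A q m τ ↔ CX.Reg A q m τ := Iff.rfl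

theorem hasSection_iff {K : Type} [Field K] [Algebra ℂ K] {ι : Type} (t : ι → K) (o : ι) (q m j : ℕ) :
    HasSection t o q m j ↔ CX.HasSection t o q m j := Iff.rfl

theorem pseff_iff {K : Type} [Field K] [Algebra ℂ K] {ι : Type} (t : ι → K) (o : ι) (q : ℕ) :
    Pseudoeffective t o q ↔ CX.Pseudoeffective t o q := Iff.rfl

theorem manifold_of {K : Type} [Field K] [Algebra ℂ K] {ι : Type} {t : ι → K} (h : CX.ProjManifold t) :
    ProjManifold t := ⟨h.ne, h.frac, h.smooth⟩

theorem statement_of (h : CX.Statement) : Statement := by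
  obtain ⟨K, i1, i2, N, t, h1, h2, h3, h4⟩ := h
  exact ⟨K, i1, i2, N, t, manifold_of h1, h2, (pseff_iff t 0 3).2 h3,
    fun m hm h => h4 m hm ((hasSection_iff t 0 3 m 0).1 h)⟩

end Pool.CXS
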